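import Pool.Agent.helper72.FE.Cor
import Pool.Agent.helper76.FE.All

/-!
# The iterates of EVERY case of Q1 with `a ≠ b`: almost all constants, in every long interval

`c` is called true for `(a, b)` if `(a, b, c)` satisfies the conditions of Q1 (`Admissible`) and `a p - b q = c` has infinitely many solutions in primes `p, q` (`TrueCase`). Let `T(x) = (b x + c)/a`; Q1 says that `T` maps infinitely many primes to primes.
The iterate `T^m` is the equation `a^m p - b^m q = (a^(m-1) + a^(m-2) b + ... + b^(m-1)) c`. `GoodIt ε a b c m`: there is `D ≥ 1` such that for every multiple `q ≥ 1` of `D` every long progression of step `q` which starts in the class of this constant modulo `D` contains at least the proportion `1 - ε` of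
numbers which are true for `(a^m, b^m)`. Nothing is assumed.

THEOREM. (1) For every `k ≥ 1` there is `C`, and for every `0 < ε ≤ 1` an ABSOLUTE `n₀`, such that for EVERY case `(a, b, c)` of Q1 with `a ≠ b` there is a set `E` of at most `C/ε^4` positive integers such that of ANY `k` different natural numbers `x_i` with differences outside `E` more than `k/4` have pairwise good
iterates `T^(n₀ (x_i - x_j))`.
(2) There is `C` and for every `0 < ε ≤ 1` an absolute `n₀` such that for EVERY case with `a ≠ b` some `T^(n₀ d)`, `d ≤ C/ε^4`, is good, for all but at most `C/ε^4` of the `d` one of `T^(n₀ d)`, `T^(2 n₀ d)`, `T^(3 n₀ d)` is good, and at least the proportion `1/3 - δ` of any long run of `d` makes `T^(n₀ d)` good.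
(3) For all `ε > 0` and `r` there is an ABSOLUTE `K` such that ANY `r` cases with `a_i ≠ b_i` have a COMMON `m ≤ K` with all `T_i^m` good.
(4) Every infinite set of integers contains an infinite set `H` such that for EVERY case with `a ≠ b` and EVERY `ε > 0` all `T^(t - s)`, `t > s > M(a, b, c, ε)` in `H`, are good.

PROOF of (1) (`Pool/Agent/helper19/FE/Spec.lean`, `Pool/Agent/helper76/FE/Spec.lean`). The input is the theorem on almost all tuples of linear forms (a sieve of Maynard and Tao for clusters of forms, `Pool/Agent/helper38/AT`): more than `1/4 + 1/500000` of the forms of almost every tuple in a product of large sets of forms are prime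
simultaneously for infinitely many `n` (a clique); two of them always give a true `c`. Let `N` bad `k`-tuples of exponents be given, without common differences. For every tuple take a tree of far translates of the forms `a'^(M-y) b'^y n + h(n₀ y)`, `a' = a^n₀`, `b' = b^n₀`, `h` an orbit of `T`, such that the `c` belonging to
the pairs which face each other at a level lie at places where the false `c` have local density at least `ε/2`. All tuples are realised by permutations of ONE set of forms, whose number depends only on `ε` and `k`; so the number `k'` of the forms to which the sieve is applied does not depend on the case or on the exponents.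
If `n₀` is divisible by `p (p - 1)` for all `p ≤ k'` then `T^n₀` is the identity modulo these primes, so the forms are admissible. The cliques give functions with average more than `1/4` and almost no false pairs; in every tree some pair has mean values bounded from below (star lemma), so it correlates with the local density minus
the indicator function of the false `c`. These differences are almost orthogonal for different tuples, and the functions span boundedly many dimensions up to a small error: by Bessel's inequality `N ≤ C/ε^4`. A maximal family gives `E`.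
PROOF of (2), (3), (4). (1) for `k = 4`; a greedy choice of exponents; Ramsey's theorem; an ultrafilter.
-/

set_option autoImplicit false

namespace Pool.Agent.Results.MP_bf63dc_nt.EveryIterate

open Finset

/-- The conditions of Q1: `a, b ≥ 1`, `c ≠ 0`, pairwise relatively prime, not all odd. -/
def Admissible (a b : ℕ) (c : ℤ) : Prop :=
  0 < a ∧ 0 < b ∧ c ≠ 0 ∧ Nat.Coprime a b ∧ IsCoprime (a : ℤ) c ∧ IsCoprime (b : ℤ) c ∧
    ¬ (Odd a ∧ Odd b ∧ Odd c)

/-- `c` is true for `(a, b)`: the conditions of Q1 hold and `a p - b q = c` has infinitely many solutions in primes `p, q`. -/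
def TrueCase (a b : ℕ) (c : ℤ) : Prop :=
  Admissible a b c ∧ {pq : ℕ × ℕ | pq.1.Prime ∧ pq.2.Prime ∧ (a : ℤ) * pq.1 - b * pq.2 = c}.Infinite

/-- `b^(m-1) + a b^(m-2) + ... + a^(m-1)` -/
def geo (a b m : ℕ) : ℕ := ∑ i ∈ range m, a ^ i * b ^ (m - 1 - i)

/-- The iterate `T^m` of `T(x) = (b x + c)/a` is good: there is `D ≥ 1` such that for every multiple `q ≥ 1` of `D` there is `M₀` such that for all `M ≥ M₀` and all `y` congruent modulo `D` to the constant
`c (a^(m-1) + ... + b^(m-1))` of `T^m` at least `(1 - ε) M` of the numbers `y, y + q, ..., y + (M - 1) q` are true for `(a^m, b^m)`. -/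
def GoodIt (ε : ℝ) (a b : ℕ) (c : ℤ) (m : ℕ) : Prop :=
  ∃ D : ℕ, 1 ≤ D ∧ ∀ q : ℕ, 1 ≤ q → D ∣ q → ∃ M₀ : ℕ, ∀ M : ℕ, M₀ ≤ M → ∀ y : ℤ, (D : ℤ) ∣ y - c * geo a b m →
    (1 - ε) * M ≤ ({t : ℕ | t < M ∧ TrueCase (a ^ m) (b ^ m) (y + q * t)}.ncard : ℝ)

theorem hT : Pool.Agent.helper85.FC.TrueCase = TrueCase := by
  funext a b c
  unfold Pool.Agent.helper85.FC.TrueCase TrueCase Admissible
  simp only [and_assoc]

theorem hA : Pool.Agent.IT.Ad = Admissible := rfl

theorem hG : Pool.Agent.FE.GoodT = GoodIt := by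
  classical
  funext ε a b c m
  unfold Pool.Agent.FE.GoodT Pool.Agent.SK.Dens GoodIt
  have h1 : ∀ (q M : ℕ) (y : ℤ), ((Pool.Agent.HF.cz (Pool.Agent.HF.TC (a ^ m) (b ^ m)) y q M : ℕ) : ℝ) = ({t : ℕ | t < M ∧ TrueCase (a ^ m) (b ^ m) (y + q * t)}.ncard : ℝ) := by
    intro q M y
    unfold Pool.Agent.HF.cz
    have e2 : {t : ℕ | t < M ∧ TrueCase (a ^ m) (b ^ m) (y + q * t)} = ((range M).filter (fun t : ℕ => Pool.Agent.HF.TC (a ^ m) (b ^ m) (y + q * (t : ℕ))) : Finset ℕ) := by
      ext t
      simp only [Set.mem_ofPred_eq, coe_filter, mem_range]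
      unfold Pool.Agent.HF.TC
      rw [hT]
    rw [e2, Set.ncard_coe_finset]
  simp only [h1]
  rfl

theorem result :
    -- more than a quarter of any `k` exponents
    (∀ k : ℕ, 1 ≤ k → ∃ C : ℝ, 0 < C ∧ ∀ ε : ℝ, 0 < ε → ε ≤ 1 → ∃ n₀ : ℕ, 1 ≤ n₀ ∧ ∀ (a b : ℕ) (c : ℤ), Admissible a b c → a ≠ b →
      ∃ E : Finset ℕ, (#E : ℝ) ≤ C / ε ^ 4 ∧ ∀ x : Fin k → ℕ, Function.Injective x → (∀ i j, x j < x i → x i - x j ∉ E) →
        ∃ S : Finset (Fin k), k < 4 * #S ∧ ∀ i ∈ S, ∀ j ∈ S, x j < x i → GoodIt ε a b c (n₀ * (x i - x j))) ∧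
    -- a bounded exponent, one of three multiples of almost every exponent, and a third of all exponents
    (∃ C : ℝ, 0 < C ∧ ∀ ε : ℝ, 0 < ε → ε ≤ 1 → ∃ n₀ : ℕ, 1 ≤ n₀ ∧ ∀ (a b : ℕ) (c : ℤ), Admissible a b c → a ≠ b →
      (∃ d : ℕ, 1 ≤ d ∧ (d : ℝ) ≤ C / ε ^ 4 ∧ GoodIt ε a b c (n₀ * d)) ∧
      (∃ F : Finset ℕ, (#F : ℝ) ≤ C / ε ^ 4 ∧ ∀ d : ℕ, 1 ≤ d → d ∉ F → GoodIt ε a b c (n₀ * d) ∨ GoodIt ε a b c (n₀ * (2 * d)) ∨ GoodIt ε a b c (n₀ * (3 * d))) ∧
      ∀ δ : ℝ, 0 < δ → ∃ M₀ : ℕ, ∀ M : ℕ, M₀ ≤ M → ∀ u : ℕ, (1 / 3 - δ) * M ≤ ({d : ℕ | d ∈ Ioc u (u + M) ∧ GoodIt ε a b c (n₀ * d)}.ncard : ℝ)) ∧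
    -- a common exponent for any `r` cases, with an absolute bound
    (∀ ε : ℝ, 0 < ε → ∀ r : ℕ, ∃ K : ℕ, 1 ≤ K ∧ ∀ (a b : Fin r → ℕ) (c : Fin r → ℤ), (∀ i, Admissible (a i) (b i) (c i)) → (∀ i, a i ≠ b i) →
      ∃ m : ℕ, 1 ≤ m ∧ m ≤ K ∧ ∀ i, GoodIt ε (a i) (b i) (c i) m) ∧
    -- one infinite set for all cases and all `ε`
    (∀ S : Set ℕ, S.Infinite → ∃ H : Set ℕ, H ⊆ S ∧ H.Infinite ∧ ∀ (a b : ℕ) (c : ℤ), Admissible a b c → a ≠ b → ∀ ε : ℝ, 0 < ε →
      ∃ M : ℕ, ∀ s ∈ H, ∀ t ∈ H, M < s → s < t → GoodIt ε a b c (t - s)) := by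
  have hFEC : Pool.Agent.FE.FEC_stmt := Pool.Agent.FE.fec
  have hFOR := Pool.Agent.FE.FOR hFEC
  have h1 := Pool.Agent.FE.COR1 hFOR
  have h2 := Pool.Agent.FE.COR2 hFOR
  have h3 := Pool.Agent.FE.COR3 hFOR
  unfold Pool.Agent.FE.FEC_stmt at hFEC
  rw [hA, hG] at hFEC h1 h2 h3
  exact ⟨hFEC, h1, h2, h3⟩

end Pool.Agent.Results.MP_bf63dc_nt.EveryIterate
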