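import Pool.Agent.helper72.FPC.Asm
import Pool.Agent.helper76.FP.All

/-!
# Almost all `c` of EVERY long interval of a class are true, for more than a quarter of any `k` coefficients and for a third of all quotients

`c` is called true for `(a, b)` if `(a, b, c)` satisfies the conditions of Q1 (`Admissible`) and `a p - b q = c` has infinitely many solutions in primes `p, q` (`TrueCase`).
`Good ε a b`: there is `D ≥ 1` such that for every multiple `q ≥ 1` of `D` every long progression of step `q` which starts in the class of `a - b` modulo `D` contains at least the proportion `1 - ε` of numbers which are true for `(a, b)`.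
The quotient `s/t` of two positive integers is called good if the pair `(a, b)` with `a/b = s/t` in lowest terms is good. Nothing is assumed.

THEOREM. (1) For every `k ≥ 1` there is `C` such that for every `0 < ε ≤ 1` there is a set of at most `C/ε^4` ratios such that of ANY `k` different positive integers with all ratios outside this set more than `k/4` have pairwise good quotients.
Hence, with an absolute constant `C`, for every `0 < ε ≤ 1`:
(2) with at most `C/ε^4` exceptions EVERY pair of coprime `a, b ≥ 1` has the property that `(a, b)`, `(a^2, b^2)` or `(a^3, b^3)` is good;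
(3) every finite set `F` of positive integers has at least `|F|^2/3 - C |F|/ε^4` pairs with a good quotient;
(4) for EVERY pair of coprime `(a, b) ≠ (1, 1)` some `(a^m, b^m)` with `m ≤ C/ε^4` is good, and at least `(1/3 - δ) M` of any `M ≥ M_0(a, b, ε, δ)` consecutive exponents `m` make `(a^m, b^m)` good;
(5) at most six positive integers have the property that for all `a, b ≥ 1` one of them, `s`, makes `s a/b` a good quotient.
(6) There is ONE sequence `m_1 < m_2 < ...` such that for ALL coprime `(a, b) ≠ (1, 1)` and ALL `ε > 0` the pairs `(a^m, b^m)`, `m = m_j`, are good from some `j` on.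

PROOF of (1) (`Pool/Agent/helper76/FP/Spec.lean`). The input is the theorem on almost all tuples of linear forms (a sieve of Maynard and Tao for clusters of forms, `Pool/Agent/helper38/AT`): more than `1/4 + 1/500000` of the forms of almost every tuple in a product of large sets of forms are prime
simultaneously for infinitely many `n` (a clique); two of them always give a true `c`. Let `N` bad tuples `s^τ` of `k` integers be given, without common ratios: every set of more than `k/4` indices contains a bad pair. For a bad pair there are arbitrarily long progressions, of steps divisible by any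
given number, in the class of `a - b`, in which the proportion of the false `c` is at least `ε`.
(Places) For every `τ` take a tree of far translates of the whole tuple, indexed by the paths `π` with `J` digits `0` or `e`, `e` a bad pair. The translations are chosen such that the `c` belonging to `(π, i)` and `(π', j)`, where `π, π'` agree above the level `l` and have there the digits `e = (i, j)` and `0`, lie in a place of
nearly extremal density of the false `c`; then the false `c` have local density at least `ε/2` along almost all progressions of any prescribed finer step. The moduli are chosen from the top level down and the translations from the bottom up.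
(Index set) A finite set of slopes `w_φ` and offsets `o_φ` with permutations `T_γ`, `γ = (τ, π, i)`, such that for almost all `φ` the form at `T_γ φ` has the slope `s_i w_φ` and the offset `s_i (o_φ + X_π)`: so for two labels `γ, γ'` of one tuple the `c` does not depend on `φ`.
(Cliques) They give functions `A_φ : {0, ..., X - 1} → [0, 1]` with average more than `1/4` and almost no false pairs.
(Star lemma) In every tree some pair `(π, i)`, `(π', j)` as above has a product of the mean values bounded from below: otherwise the maxima of the mean values over the clusters of the level `l` would increase with `l` beyond `1`.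
So for every `τ` some pair `A (T_γ φ) ⊗ A (T_γ' φ)` correlates with the difference of the local density and the indicator function of the false `c`. These differences are almost orthogonal for different ratios, and the functions `A_φ` span boundedly many dimensions up to a small error (spectral theorem): by Bessel's inequality `N ≤ C/ε^4`.
A maximal family of such tuples gives the exceptional set.
PROOF of (2) - (6). (1) for `k = 4` and the integers `a^h b^(H - h)`; the theorems of Turan and Ramsey.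
-/

set_option autoImplicit false

namespace Pool.Agent.Results.MP_bf63dc_nt.FourRatios

open Finset

/-- The conditions of Q1: `a, b ≥ 1`, `c ≠ 0`, pairwise relatively prime, not all odd. -/
def Admissible (a b : ℕ) (c : ℤ) : Prop :=
  0 < a ∧ 0 < b ∧ c ≠ 0 ∧ Nat.Coprime a b ∧ IsCoprime (a : ℤ) c ∧ IsCoprime (b : ℤ) c ∧
    ¬ (Odd a ∧ Odd b ∧ Odd c)

/-- `c` is true for `(a, b)`: the conditions of Q1 hold and `a p - b q = c` has infinitely many solutions in primes `p, q`. -/
def TrueCase (a b : ℕ) (c : ℤ) : Prop :=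
  Admissible a b c ∧ {pq : ℕ × ℕ | pq.1.Prime ∧ pq.2.Prime ∧ (a : ℤ) * pq.1 - b * pq.2 = c}.Infinite

/-- There is `D ≥ 1` such that for every multiple `q ≥ 1` of `D` there is `M₀` such that for all `M ≥ M₀` and all `y ≡ a - b` modulo `D` at least `(1 - ε) M` of the numbers `y, y + q, ..., y + (M - 1) q` are true for `(a, b)`. -/
def Good (ε : ℝ) (a b : ℕ) : Prop :=
  ∃ D : ℕ, 1 ≤ D ∧ ∀ q : ℕ, 1 ≤ q → D ∣ q → ∃ M₀ : ℕ, ∀ M : ℕ, M₀ ≤ M → ∀ y : ℤ, (D : ℤ) ∣ y - ((a : ℤ) - b) →
    (1 - ε) * M ≤ ({t : ℕ | t < M ∧ TrueCase a b (y + q * t)}.ncard : ℝ)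

/-- the quotient `s/t` in lowest terms -/
def low (s t : ℕ) : ℕ × ℕ := (s / Nat.gcd s t, t / Nat.gcd s t)

/-- the pair `(a, b)` with `a/b = s/t` in lowest terms is good -/
def GoodQ (ε : ℝ) (s t : ℕ) : Prop := Good ε (low s t).1 (low s t).2

theorem hT : Pool.Agent.helper85.FC.TrueCase = TrueCase := by
  funext a b c
  unfold Pool.Agent.helper85.FC.TrueCase TrueCase Admissible
  simp only [and_assoc]

theorem hG (ε : ℝ) (a b : ℕ) : Pool.Agent.FPC.GoodM ε a b ↔ Good ε a b := by
  classical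
  unfold Pool.Agent.FPC.GoodM Good
  have h1 : ∀ (q M : ℕ) (y : ℤ), (#{t ∈ range M | Pool.Agent.helper85.FC.TrueCase a b (y + q * (t : ℕ))} : ℝ) = ({t : ℕ | t < M ∧ TrueCase a b (y + q * t)}.ncard : ℝ) := by
    intro q M y
    rw [hT]
    have e2 : {t : ℕ | t < M ∧ TrueCase a b (y + q * t)} = ((range M).filter (fun t : ℕ => TrueCase a b (y + q * (t : ℕ))) : Finset ℕ) := by
      ext t
      simp only [Set.mem_ofPred_eq, coe_filter, mem_range]
    rw [e2, Set.ncard_coe_finset]
  simp only [← h1]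

theorem hQ (ε : ℝ) (s t : ℕ) : Pool.Agent.FPC.GQM ε s t ↔ GoodQ ε s t := hG ε _ _

/-- monotonicity of counts -/
theorem hle {α : Type} (s : Finset α) (P Q : α → Prop) (inst : DecidablePred Q) (h : ∀ x ∈ s, Q x → P x) :
    ((#(@Finset.filter α Q inst s) : ℕ) : ℝ) ≤ (({x | x ∈ s ∧ P x}.ncard : ℕ) : ℝ) := by
  rw [← Set.ncard_coe_finset]
  refine Nat.cast_le.2 (Set.ncard_le_ncard ?_ (s.finite_toSet.subset fun x hx => hx.1))
  intro x hx
  rw [mem_coe, mem_filter] at hx
  exact ⟨hx.1, h x hx.1 hx.2⟩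

theorem result :
    -- more than a quarter of any `k` integers
    (∀ k : ℕ, 1 ≤ k → ∃ C : ℝ, 0 < C ∧ ∀ ε : ℝ, 0 < ε → ε ≤ 1 → ∃ E : Finset (ℕ × ℕ), (#E : ℝ) ≤ C / ε ^ 4 ∧
      ∀ s : Fin k → ℕ, (∀ i, 0 < s i) → Function.Injective s → (∀ i j, i ≠ j → low (s i) (s j) ∉ E) →
        ∃ I : Finset (Fin k), k < 4 * #I ∧ ∀ i ∈ I, ∀ j ∈ I, i ≠ j → GoodQ ε (s i) (s j)) ∧
    (∃ C : ℝ, 0 < C ∧ ∀ ε : ℝ, 0 < ε → ε ≤ 1 →
      -- one of the first three powers, with at most `C / ε ^ 4` exceptions
      (∃ E : Finset (ℕ × ℕ), (#E : ℝ) ≤ C / ε ^ 4 ∧ ∀ a b : ℕ, 1 ≤ a → 1 ≤ b → Nat.Coprime a b → (a, b) ∉ E →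
        Good ε a b ∨ Good ε (a ^ 2) (b ^ 2) ∨ Good ε (a ^ 3) (b ^ 3)) ∧
      -- a third of all pairs
      (∀ F : Finset ℕ, (∀ s ∈ F, 0 < s) → 1 / 3 * (#F : ℝ) ^ 2 - C / ε ^ 4 * #F ≤
        ({p | p ∈ F ×ˢ F ∧ GoodQ ε p.1 p.2}.ncard : ℝ)) ∧
      -- a bounded exponent, and a third of all exponents, for every pair
      (∀ a b : ℕ, 1 ≤ a → 1 ≤ b → Nat.Coprime a b → ¬ (a = 1 ∧ b = 1) →
        (∃ m : ℕ, 1 ≤ m ∧ (m : ℝ) ≤ C / ε ^ 4 ∧ Good ε (a ^ m) (b ^ m)) ∧
        ∀ δ : ℝ, 0 < δ → ∃ M₀ : ℕ, ∀ M : ℕ, M₀ ≤ M → ∀ u : ℕ, (1 / 3 - δ) * M ≤ ({m : ℕ | m ∈ Ioc u (u + M) ∧ Good ε (a ^ m) (b ^ m)}.ncard : ℝ)) ∧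
      -- six integers for all pairs
      (∃ S : Finset ℕ, #S ≤ 6 ∧ (∀ s ∈ S, 0 < s) ∧ ∀ a b : ℕ, 1 ≤ a → 1 ≤ b → ∃ s ∈ S, GoodQ ε (s * a) b)) ∧
    -- one sequence of exponents for all pairs and all `ε`
    (∃ m : ℕ → ℕ, StrictMono m ∧ 1 ≤ m 0 ∧
      ∀ a b : ℕ, 1 ≤ a → 1 ≤ b → Nat.Coprime a b → ¬ (a = 1 ∧ b = 1) → ∀ ε : ℝ, 0 < ε →
        ∃ j₀ : ℕ, ∀ j, j₀ ≤ j → Good ε (a ^ m j) (b ^ m j)) := by
  have hFIN : Pool.Agent.FP.FIN_stmt := Pool.Agent.FP.fin
  have hAll := Pool.Agent.FPC.Asm_all hFIN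
  refine ⟨?_, ?_, ?_⟩
  · intro k hk
    obtain ⟨C, hC, h1⟩ := Pool.Agent.FPC.Asm_K hFIN k hk
    refine ⟨C, hC, fun ε hε hε1 => ?_⟩
    obtain ⟨E, hE, h2⟩ := h1 ε hε hε1
    refine ⟨E, hE, fun s hs hinj hrat => ?_⟩
    obtain ⟨I, hI, h3⟩ := h2 s (fun i => ⟨hs i, Set.mem_univ _⟩) hinj hrat
    exact ⟨I, hI, fun i hi j hj hij => (hQ _ _ _).1 (h3 i hi j hj hij)⟩
  · obtain ⟨C, hC, h1⟩ := Pool.Agent.FPC.Asm_K hFIN 4 (by norm_num)
    have hTHR := Pool.Agent.FPC.THR hAll Pool.Agent.EP.MXC Pool.Agent.FPC.GQMS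
    refine ⟨18 * C + 21, by linarith, fun ε hε hε1 => ?_⟩
    obtain ⟨E, hE, h2⟩ := h1 ε hε hε1
    have hFour := Pool.Agent.FPC.CliK_four ε E _ h2
    have h4 : ε ^ 4 ≤ 1 := pow_le_one₀ hε.le hε1
    have h4p : 0 < ε ^ 4 := by positivity
    have hinv : 1 ≤ 1 / ε ^ 4 := by rw [le_div_iff₀ h4p, one_mul]; exact h4
    have hCe : (18 * C + 21) / ε ^ 4 = 18 * (C / ε ^ 4) + 21 * (1 / ε ^ 4) := by ring
    have hE0 : (0 : ℝ) ≤ #E := Nat.cast_nonneg _
    refine ⟨?_, ?_, ?_, ?_⟩
    · obtain ⟨E', hE', h⟩ := Pool.Agent.FPC.TRIQ Pool.Agent.FPC.GSM ε E hFour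
      refine ⟨E', ?_, fun a b ha hb hab hn => ?_⟩
      · have h5 : (#E' : ℝ) ≤ 6 * #E + 1 := by exact_mod_cast hE'
        rw [hCe]
        linarith
      · have h5 := h a b ha hb hab hn
        simp only [hG] at h5
        exact h5
    · intro F hF
      have h5 := Pool.Agent.FPC.CNTQ Pool.Agent.FPC.GQMS ε E hFour F hF
      have h6 : (2 * (#E : ℝ) + 1) * #F ≤ (18 * C + 21) / ε ^ 4 * #F :=
        mul_le_mul_of_nonneg_right (by rw [hCe]; linarith) (Nat.cast_nonneg _)
      refine le_trans (by linarith) (h5.trans (hle _ _ _ _ fun p _ hp => (hQ _ _ _).1 hp))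
    · intro a b ha hb hab hne
      obtain ⟨m, hm1, hm2, hm⟩ := Pool.Agent.FPC.POWQ Pool.Agent.FPC.GSM ε #E (fun F _ => ⟨E, le_rfl, fun s hs hinj hrat => hFour s (fun i => ⟨(hs i).1, Set.mem_univ _⟩) hinj hrat⟩) a b ha hb hab hne
      refine ⟨⟨m, hm1, ?_, (hG _ _ _).1 hm⟩, fun δ hδ => ?_⟩
      · have h5 : (m : ℝ) ≤ 3 * (6 * #E + 1) := by exact_mod_cast hm2
        rw [hCe]
        linarith
      · obtain ⟨M₀, hM⟩ := Pool.Agent.FPC.Exp_third ε E hFour δ hδ a b ⟨ha, hb, hab, hne⟩
        exact ⟨M₀, fun M hM' u => (hM M hM' u).trans (hle _ _ _ _ fun m _ hm => (hG _ _ _).1 hm)⟩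
    · obtain ⟨S, hS6, hS0, h⟩ := Pool.Agent.FPC.SIX hTHR ε hε
      refine ⟨S, hS6, hS0, fun a b ha hb => ?_⟩
      obtain ⟨u, hu, h5⟩ := h a b ha hb
      exact ⟨u, hu, (hQ _ _ _).1 h5⟩
  · obtain ⟨m, hm, hm0, h⟩ := Pool.Agent.FPC.Exp_seq hAll
    refine ⟨m, hm, hm0, fun a b ha hb hab hne ε hε => ?_⟩
    obtain ⟨j₀, hj⟩ := h a b ⟨ha, hb, hab, hne⟩ ε hε
    exact ⟨j₀, fun j hj' => (hG _ _ _).1 (hj j hj')⟩

end Pool.Agent.Results.MP_bf63dc_nt.FourRatios
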