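import Pool.Agent.helper72.MM.Y1
import Pool.Agent.helper11.TX.All3
import Pool.Agent.helper11.MK.Main

/-!
# Near EVERY pair `(a, b)` at least a third of all cases of Q1 are true

THEOREM. For every `ε > 0` there are positive integers `s_1, ..., s_n` such that for ALL `a, b ≥ 1` the mean value over all `i, j ≤ n` of the upper
density (with the weights of Hardy and Littlewood) of the true cases among all cases of Q1 for the pair `(s_i a, s_j b)`, divided by its gcd, is at least `1/3 - ε`.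

PROOF. Input (`Pool.Agent.helper11.TX.DF_of`): for every finite sequence `s` of positive integers the mean value `D_M(s)` over `i, j` of the share of the true
`c` for the pair of `s_i, s_j` (reduced, at the scale `M`) is at least `1/3 - ε'` for all large `M`. Let `d ≥ 1/3` be the infimum over all sequences of the lower limit of `D_M(s)`, and
take a sequence with `D_M(s) ≤ d + ε'` for arbitrarily large `M`. For given `a, b` the sequence `s_1 a, .., s_n a, s_1 b, .., s_n b` has `D_M ≥ d - ε'` for all large `M`; this is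
`D_M(s)/2 + X_M/2`, where `X_M` is the mean value of the shares for the pairs `(s_i a, s_j b)` and `(s_j b, s_i a)`; so `X_M ≥ d - 3 ε'` for arbitrarily large `M`, and the upper
limit of a mean value is at most the mean value of the upper limits.
-/

set_option autoImplicit false

namespace Pool.Agent.Results.MP_bf63dc_nt.MeanShare

open Finset

/-- The conditions of Q1 on `a, b, c`. -/
def Admissible (a b : ℕ) (c : ℤ) : Prop :=
  0 < a ∧ 0 < b ∧ c ≠ 0 ∧ Nat.Coprime a b ∧ IsCoprime (a : ℤ) c ∧ IsCoprime (b : ℤ) c ∧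
    ¬ (Odd a ∧ Odd b ∧ Odd c)

/-- `(a, b, c)` satisfies the conditions of Q1 and `a p - b q = c` has infinitely many solutions in
primes `p, q`. -/
def TrueCase (a b : ℕ) (c : ℤ) : Prop :=
  Admissible a b c ∧ {pq : ℕ × ℕ | pq.1.Prime ∧ pq.2.Prime ∧ (a : ℤ) * pq.1 - b * pq.2 = c}.Infinite

/-- The singular series of `a p - b q = c` up to a constant factor: the product of `(l - 1)/(l - 2)` over the primes `l ≠ 2` dividing
`a b c`. -/
noncomputable def SS (a b : ℕ) (c : ℤ) : ℝ :=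
  ∏ l ∈ (a * b * c.natAbs).primeFactors with l ≠ 2, ((l : ℝ) - 1) / ((l : ℝ) - 2)

/-- The mass of the `c` with `|c| ≤ X` and `P a b c`: the sum of `SS a b c`. -/
noncomputable def Mass (P : ℕ → ℕ → ℤ → Prop) (a b X : ℕ) : ℝ :=
  ∑ c ∈ Icc (-(X : ℤ)) X, Set.indicator {c | P a b c} (SS a b) c

/-- For the pair `(s, t)` divided by its gcd: the upper limit for `X → ∞` of the mass of the true `c`, `|c| ≤ X`, divided by the mass of the admissible `c`, `|c| ≤ X`. -/
noncomputable def Share (s t : ℕ) : ℝ :=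
  Filter.limsup (fun X : ℕ => Mass TrueCase (s / Nat.gcd s t) (t / Nat.gcd s t) X / Mass Admissible (s / Nat.gcd s t) (t / Nat.gcd s t) X)
    Filter.atTop

theorem hT : Pool.Agent.helper85.FC.TrueCase = TrueCase := by
  funext a b c
  unfold Pool.Agent.helper85.FC.TrueCase TrueCase Admissible
  simp only [and_assoc]

theorem hM (P : ℕ → ℕ → ℤ → Prop) (a b X : ℕ) : Pool.Agent.EP.Ms P a b X = Mass P a b X := by
  unfold Pool.Agent.EP.Ms Mass
  rw [sum_filter]
  refine sum_congr rfl fun c _ => ?_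
  by_cases hc : P a b c
  · rw [if_pos hc, Set.indicator_of_mem (show c ∈ {c | P a b c} from hc)]
    rfl
  · rw [if_neg hc, Set.indicator_of_notMem (show c ∉ {c | P a b c} from hc)]

/-- the share for `|c| ≤ X` -/
noncomputable def sh (a b X : ℕ) : ℝ := Mass TrueCase a b X / Mass Admissible a b X

theorem sh_symm (a b X : ℕ) : sh a b X = sh b a X := by
  unfold sh
  have h1 : Mass TrueCase a b X = Mass TrueCase b a X := by
    rw [← hM, ← hM, ← hT]
    exact Pool.Agent.EP.UQS_Ms _ (fun _ _ _ h => Pool.Agent.AT.PSY_symm h) a b X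
  have h2 : Mass Admissible a b X = Mass Admissible b a X := by
    rw [← hM, ← hM]
    exact Pool.Agent.EP.UQS_Ms Pool.Agent.helper11.TX.Adm (fun _ _ _ h => Pool.Agent.EP.UQS_adm h) a b X
  rw [h1, h2]

theorem sh_le_one (a b X : ℕ) : sh a b X ≤ 1 := by
  unfold sh
  have h0 : ∀ c, 0 ≤ SS a b c := fun c => Pool.Agent.EP.UQS_SS_nonneg a b c
  refine div_le_one_of_le₀ ?_ ?_
  · unfold Mass
    refine sum_le_sum fun c _ => ?_
    refine Set.indicator_le_indicator_of_subset (fun c hc => ?_) h0 c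
    exact (show TrueCase a b c from hc).1
  · unfold Mass
    exact sum_nonneg fun c _ => Set.indicator_nonneg (fun c _ => h0 c) c

/-- for all large `M` the share at the scale `M` is at most the upper limit plus `ε` -/
theorem ev_le (s t : ℕ) (hs : 1 ≤ s) (ht : 1 ≤ t) (ε : ℝ) (hε : 0 < ε) :
    ∃ M₀ : ℕ, ∀ M : ℕ, M₀ ≤ M → Pool.Agent.MM.Fm M s t ≤ Share s t + ε ∧ Pool.Agent.MM.Fm M t s ≤ Share s t + ε := by
  have hg : 0 < Nat.gcd s t := Nat.gcd_pos_of_pos_left _ hs
  obtain ⟨x, hx⟩ : ∃ x, x = s / Nat.gcd s t := ⟨_, rfl⟩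
  obtain ⟨y, hy⟩ : ∃ y, y = t / Nat.gcd s t := ⟨_, rfl⟩
  have hx1 : 1 ≤ x := by rw [hx]; exact Nat.div_pos (Nat.gcd_le_left _ hs) hg
  have hy1 : 1 ≤ y := by rw [hy]; exact Nat.div_pos (Nat.gcd_le_right _ ht) hg
  have hxy : Nat.Coprime x y := by rw [hx, hy]; exact Nat.coprime_div_gcd_div_gcd hg
  have hbdd : Filter.IsBoundedUnder (· ≤ ·) Filter.atTop (fun X : ℕ => sh x y X) :=
    Filter.isBoundedUnder_of ⟨1, fun X => sh_le_one x y X⟩
  have hlim : Filter.limsup (fun X : ℕ => sh x y X) Filter.atTop < Share s t + ε / 2 := by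
    have e : Filter.limsup (fun X : ℕ => sh x y X) Filter.atTop = Share s t := by
      unfold Share sh
      rw [hx, hy]
    rw [e]
    linarith
  obtain ⟨X₀, hX₀⟩ := Filter.eventually_atTop.1 (Filter.eventually_lt_of_limsup_lt hlim hbdd)
  obtain ⟨M₁, h1⟩ := Pool.Agent.MM.endp x y hx1 hy1 hxy (ε / 2) (by linarith)
  obtain ⟨M₂, h2⟩ := Pool.Agent.MM.endp y x hy1 hx1 hxy.symm (ε / 2) (by linarith)
  refine ⟨max X₀ (max M₁ M₂), fun M hMM => ?_⟩
  have hM0 : X₀ ≤ M := (le_max_left _ _).trans hMM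
  have hM1 : M₁ ≤ M := ((le_max_left _ _).trans (le_max_right _ _)).trans hMM
  have hM2 : M₂ ≤ M := ((le_max_right _ _).trans (le_max_right _ _)).trans hMM
  refine ⟨?_, ?_⟩
  · have h3 := h2 M hM2
    have h4 : Pool.Agent.MM.Fm M s t = Pool.Agent.helper11.TX.DD y x (2 * M) (-(M : ℤ)) := by
      unfold Pool.Agent.MM.Fm
      rw [hx, hy]
    rw [h4]
    have h5 : Pool.Agent.EP.Ms Pool.Agent.helper85.FC.TrueCase y x (x * M) / Pool.Agent.EP.Ms Pool.Agent.helper11.TX.Adm y x (x * M) =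
        sh x y (x * M) := by
      rw [sh_symm, hM, hM, hT]
      rfl
    rw [h5] at h3
    have h6 := hX₀ (x * M) (hM0.trans (Nat.le_mul_of_pos_left _ hx1))
    linarith
  · have h3 := h1 M hM1
    have h4 : Pool.Agent.MM.Fm M t s = Pool.Agent.helper11.TX.DD x y (2 * M) (-(M : ℤ)) := by
      unfold Pool.Agent.MM.Fm
      rw [hx, hy, Nat.gcd_comm t s]
    rw [h4]
    have h5 : Pool.Agent.EP.Ms Pool.Agent.helper85.FC.TrueCase x y (y * M) / Pool.Agent.EP.Ms Pool.Agent.helper11.TX.Adm x y (y * M) =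
        sh x y (y * M) := by
      rw [hM, hM, hT]
      rfl
    rw [h5] at h3
    have h6 := hX₀ (y * M) (hM0.trans (Nat.le_mul_of_pos_left _ hy1))
    linarith

/-- **A third near every pair.** -/
theorem result : ∀ ε : ℝ, 0 < ε → ∃ (n : ℕ) (s : Fin n → ℕ), 0 < n ∧ (∀ i, 0 < s i) ∧ ∀ a b : ℕ, 1 ≤ a → 1 ≤ b →
    1 / 3 - ε ≤ (∑ i, ∑ j, Share (s i * a) (s j * b)) / (n : ℝ) ^ 2 := by
  classical
  intro ε hε
  obtain ⟨n, s, hn, hs, h⟩ := Pool.Agent.MM.minY (Pool.Agent.helper11.TX.DF_of Pool.Agent.helper11.MK.cm4) (ε / 2) (by linarith)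
  refine ⟨n, fun i => s i, hn, fun i => hs _, fun a b ha hb => ?_⟩
  have hn0 : (0 : ℝ) < n := by exact_mod_cast hn
  rw [le_div_iff₀ (by positivity)]
  have h1 : ∀ p : ℕ × ℕ, ∃ M₀ : ℕ, ∀ M : ℕ, M₀ ≤ M → Pool.Agent.MM.Fm M (s p.1 * a) (s p.2 * b) ≤ Share (s p.1 * a) (s p.2 * b) + ε / 2 ∧
      Pool.Agent.MM.Fm M (s p.2 * b) (s p.1 * a) ≤ Share (s p.1 * a) (s p.2 * b) + ε / 2 := fun p =>
    ev_le _ _ (Nat.mul_pos (hs _) ha) (Nat.mul_pos (hs _) hb) (ε / 2) (by linarith)
  choose M₀ hM₀ using h1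
  obtain ⟨M, hM, h2⟩ := h a b ha hb (∑ p ∈ range n ×ˢ range n, M₀ p)
  have h3 : ∑ i ∈ range n, ∑ j ∈ range n, (Pool.Agent.MM.Fm M (s i * a) (s j * b) + Pool.Agent.MM.Fm M (s j * b) (s i * a)) / 2 ≤
      ∑ i ∈ range n, ∑ j ∈ range n, (Share (s i * a) (s j * b) + ε / 2) := by
    refine sum_le_sum fun i hi => sum_le_sum fun j hj => ?_
    have h4 : M₀ (i, j) ≤ M := (single_le_sum (f := M₀) (fun _ _ => Nat.zero_le _) (mem_product.2 ⟨hi, hj⟩)).trans hM
    obtain ⟨h5, h6⟩ := hM₀ (i, j) M h4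
    dsimp only at h5 h6
    linarith
  have h4 : ∑ i ∈ range n, ∑ j ∈ range n, (Share (s i * a) (s j * b) + ε / 2) =
      ∑ i : Fin n, ∑ j : Fin n, Share (s i * a) (s j * b) + ε / 2 * (n : ℝ) ^ 2 := by
    rw [sum_range (fun i => ∑ j ∈ range n, (Share (s i * a) (s j * b) + ε / 2))]
    have h5 : ∀ i : Fin n, ∑ j ∈ range n, (Share (s i * a) (s j * b) + ε / 2) = ∑ j : Fin n, Share (s i * a) (s j * b) + n * (ε / 2) := by
      intro i
      rw [sum_range (fun j => Share (s i * a) (s j * b) + ε / 2), sum_add_distrib, sum_const, card_univ, Fintype.card_fin, nsmul_eq_mul]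
    rw [sum_congr rfl fun i _ => h5 i, sum_add_distrib, sum_const, card_univ, Fintype.card_fin, nsmul_eq_mul]
    ring
  rw [h4] at h3
  nlinarith

end Pool.Agent.Results.MP_bf63dc_nt.MeanShare
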