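import Pool.Agent.helper19.HF.Fin1
import Pool.Agent.helper72.MM.O3
import Pool.Agent.helper34.EC9.E2
import Pool.Agent.helper43.IT.K4R
import Pool.Agent.helper98.IT.K4C
import Pool.Agent.helper38.AT.All

/-!
# More than half of the multiples of some `n`: differences of primes, and the iterates of EVERY case of Q1

For a case `(a, b, c)` of Q1 let `T x = (b x + c) / a`; Q1 says that `T` maps infinitely many primes to primes (`a p - b q = c`, `p = T q`). The iterates of `T` are again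
cases of Q1: `T^m` is the equation `a^m p - b^m q = (a^(m-1) + a^(m-2) b + ... + b^(m-1)) c`.

A number `n` is good for a set `P` of positive integers if more than half (at least `(1/2 + 3/10^6) M`) of any `M ≥ M₀(P, n)` consecutive multiples of `n` are in `P`, every large multiple of `n` is the sum of two multiples of `n`
in `P`, and for every `h ≥ 0` at least `6 M/10^6` of any `M ≥ M₀` consecutive `k` have `n k` and `n (k + h)` in `P`.

THEOREM. (1) All multiples of some `n₀` are good for the set of the differences `p - q` of infinitely many pairs of primes.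
(2) For EVERY case `T` of Q1 all multiples of some `n₀(T)` are good for the set of the exponents `m` such that `T^m` maps infinitely many primes to primes.
(3) UNIFORMLY IN THE CASE (idea of helper99): there are ABSOLUTE numbers `D, Q, K` such that for every chain `n_0, n_1, ...` with `D ∣ n_0` and `Q n_i ∣ n_(i+1)` (for instance `n_i = D Q^i`) and for EVERY case `T` all but at most `K - 1` of the `n_i` are
good for the true exponents of `T`; so one finite list of numbers contains for EVERY case a good one. The same for every positive rational number `r ≠ 1` and the exponents `m` with `r^m = (p + 1) / (q + 1)` (or `r^m = (p - 1) / (q - 1)`) for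
infinitely many pairs of primes.
(4) For EVERY case the set of ALL `m ≥ 1` with `T^m` true has lower Banach density at least `1/3`.
(5) Uniformly in the case, with `M₀(ε)` ABSOLUTE: for all but `ε M` of any `M ≥ M₀` consecutive positive integers `m` one of
`T^m, T^(2m), T^(3m)` maps infinitely many primes to primes, or, only needed if `3` divides `a - b` and not `a b c`, `T^(4m)`.

PROOF of (1), (2), (3). By the theorem on almost all `k`-tuples of linear forms (a sieve of Maynard and Tao for clusters of forms, proved in `Pool/Agent/helper38/AT`) the true exponents have the following property with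
`α = 1/4 + 1/500000`: for all `k, η` there are `D, L` (independent of the case) such that for all finite sets `F_1, ..., F_k` of at least `L` multiples of `D` all but `η ∏ |F_i|` of the tuples `x ∈ F_1 × ... × F_k` contain more than `α k` elements
all of whose differences are true. The theorem: then for every `δ > 0` and all multiples `m` of some `m₀` the true multiples of `m` have lower Banach density `≥ 2 α - δ` in the multiples of `m`. Steps: (I) PINNING: such cliques in most samples of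
blocks give functions `a_β : P_β → [0, 1]` on the blocks with `∑ mean(a_β) ≥ (α - ε) b` and almost all pairs of `a_β × a_β'` at a true distance (increment of energy; Bessel's inequality). (II) Take a bad modulus near the infimum of the densities along all progressions of
steps divisible by `D` (in (3): a member of a long chain of bad moduli where these densities almost do not decrease); left blocks with differences in windows of low density, right blocks at a location `Y` such that all differences between left and right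
lie in windows of density near the infimum. (III) A trivial bound shows that the functions on the left blocks and on
the right blocks are both not small. (IV) For one left and one right block the popular differences of the two sets are true and have an almost period `p q` with a large prime `p` and bounded `q` (the method of Croot and Sisask); folded modulo `p`, POLLARD's theorem gives that
their density is at least the sum of the two densities, `≥ 2 α`. This contradicts (II).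
-/

set_option autoImplicit false

namespace Pool.Agent.Results.MP_bf63dc_nt.MoreThanHalf

open Finset

/-- The conditions of Q1 on `a, b, c`. -/
def Admissible (a b : ℕ) (c : ℤ) : Prop :=
  0 < a ∧ 0 < b ∧ c ≠ 0 ∧ Nat.Coprime a b ∧ IsCoprime (a : ℤ) c ∧ IsCoprime (b : ℤ) c ∧
    ¬ (Odd a ∧ Odd b ∧ Odd c)

/-- `(a, b, c)` satisfies the conditions of Q1 and `a p - b q = c` has infinitely many solutions in
primes `p, q`. -/
def TrueCase (a b : ℕ) (c : ℤ) : Prop :=
  Admissible a b c ∧ {pq : ℕ × ℕ | pq.1.Prime ∧ pq.2.Prime ∧ (a : ℤ) * pq.1 - b * pq.2 = c}.Infinite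

/-- the iterate `T^m` of `T x = (b x + c) / a` is a true case of Q1: `a^m p - b^m q = (a^(m-1) + a^(m-2) b + ... + b^(m-1)) c` -/
def TrueIterate (a b : ℕ) (c : ℤ) (m : ℕ) : Prop :=
  TrueCase (a ^ m) (b ^ m) ((∑ i ∈ range m, (a : ℤ) ^ i * (b : ℤ) ^ (m - 1 - i)) * c)

/-- `n` is good for `P`: at least `(1/2 + 3/10^6) M` of any `M ≥ M₀` consecutive multiples of `n` have `P`; every large multiple of `n` is the sum of two
multiples of `n` with `P`; and for every `h` at least `6 M/10^6` of any `M ≥ M₀` consecutive `k` have `P (n k)` and `P (n (k + h))` -/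
def Good (P : ℕ → Prop) (n : ℕ) : Prop := ∃ M₀ : ℕ,
  (∀ M : ℕ, M₀ ≤ M → ∀ u : ℕ, (1 / 2 + 3 / 10 ^ 6 : ℝ) * M ≤ ({k : ℕ | (u < k ∧ k ≤ u + M) ∧ P (n * k)}.ncard : ℝ)) ∧
  (∀ K : ℕ, M₀ ≤ K → ∃ k k' : ℕ, 1 ≤ k ∧ 1 ≤ k' ∧ k + k' = K ∧ P (n * k) ∧ P (n * k')) ∧
  ∀ M : ℕ, M₀ ≤ M → ∀ h u : ℕ, (6 / 10 ^ 6 : ℝ) * M ≤ ({k : ℕ | (u < k ∧ k ≤ u + M) ∧ P (n * k) ∧ P (n * (k + h))}.ncard : ℝ)

/-- `m` is the difference of infinitely many pairs of primes -/
def PrimeDifference (m : ℕ) : Prop := {pq : ℕ × ℕ | pq.1.Prime ∧ pq.2.Prime ∧ (pq.1 : ℤ) - pq.2 = m}.Infinite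

/-- `r^m = (p + s) / (q + s)` for infinitely many pairs of primes `p, q` -/
def PowerQuotient (r : ℚ) (s : ℤ) (m : ℕ) : Prop := {pq : ℕ × ℕ | pq.1.Prime ∧ pq.2.Prime ∧ r ^ m = ((pq.1 : ℚ) + s) / ((pq.2 : ℚ) + s)}.Infinite

theorem hT (a b : ℕ) (c : ℤ) : Pool.Agent.helper85.FC.TrueCase a b c ↔ TrueCase a b c := by
  unfold Pool.Agent.helper85.FC.TrueCase TrueCase Admissible
  simp only [and_assoc]

theorem hAd (a b : ℕ) (c : ℤ) : Pool.Agent.IT.Ad a b c ↔ Admissible a b c := Iff.rfl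

theorem hIt (a b m : ℕ) (c : ℤ) : Pool.Agent.IT.It a b c m ↔ TrueIterate a b c m := by
  unfold Pool.Agent.IT.It Pool.Agent.IT.br TrueIterate
  rw [hT]
  push_cast
  rw [mul_comm]

theorem hG (P : ℕ → Prop) (n : ℕ) : Pool.Agent.HF.Goo P n ↔ Good P n := Iff.rfl

theorem adm_shift (a b : ℕ) (ha : 0 < a) (hb : 0 < b) (hab : Nat.Coprime a b) (hne : (b : ℤ) - a ≠ 0) (s : ℤ) (hs : s = 1 ∨ s = -1) :
    Admissible a b (s * ((b : ℤ) - a)) := by
  have h1 : IsCoprime (a : ℤ) (b : ℤ) := Nat.isCoprime_iff_coprime.2 hab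
  have h2 : IsCoprime (a : ℤ) ((b : ℤ) - a) := by
    obtain ⟨x, y, h⟩ := h1
    exact ⟨x + y, y, by linear_combination h⟩
  have h3 : IsCoprime (b : ℤ) ((b : ℤ) - a) := by
    obtain ⟨x, y, h⟩ := h1
    exact ⟨x + y, -x, by linear_combination h⟩
  have key : ∀ z : ℤ, IsCoprime z ((b : ℤ) - a) → IsCoprime z (s * ((b : ℤ) - a)) := by
    intro z hz
    rcases hs with rfl | rfl
    · rwa [one_mul]
    · rw [neg_one_mul, IsCoprime.neg_right_iff]
      exact hz
  refine ⟨ha, hb, ?_, hab, key _ h2, key _ h3, ?_⟩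
  · rcases hs with rfl | rfl
    · rwa [one_mul]
    · rw [neg_one_mul, neg_ne_zero]
      exact hne
  · rintro ⟨⟨x, hx⟩, ⟨y, hy⟩, ⟨z, hz⟩⟩
    rcases hs with rfl | rfl <;> omega

theorem shift (r : ℚ) (a b : ℕ) (hab : r = (b : ℚ) / a) (ha : 0 < a) (s : ℤ) (hs : s = 1 ∨ s = -1) (m : ℕ)
    (h : TrueIterate a b (s * ((b : ℤ) - a)) m) :
    {pq : ℕ × ℕ | pq.1.Prime ∧ pq.2.Prime ∧ r ^ m = ((pq.1 : ℚ) + s) / ((pq.2 : ℚ) + s)}.Infinite := by
  refine h.2.mono ?_
  rintro ⟨p, q⟩ ⟨hp, hq, he⟩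
  refine ⟨hp, hq, ?_⟩
  dsimp only at he hp hq ⊢
  have h1 := geom_sum₂_mul (a : ℤ) (b : ℤ) m
  have h2 : (∑ i ∈ range m, (a : ℤ) ^ i * (b : ℤ) ^ (m - 1 - i)) * (s * ((b : ℤ) - a)) = s * ((b : ℤ) ^ m - (a : ℤ) ^ m) := by
    linear_combination -s * h1
  rw [h2] at he
  push_cast at he
  have h3 : (a : ℤ) ^ m * ((p : ℤ) + s) = (b : ℤ) ^ m * ((q : ℤ) + s) := by linear_combination he
  have h4 : (a : ℚ) ^ m * ((p : ℚ) + s) = (b : ℚ) ^ m * ((q : ℚ) + s) := by exact_mod_cast h3
  have ha' : (a : ℚ) ^ m ≠ 0 := by positivity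
  have hq' : (q : ℚ) + s ≠ 0 := by
    have h5 : (q : ℤ) + s ≠ 0 := by
      have h6 := hq.two_le
      rcases hs with rfl | rfl <;> omega
    exact_mod_cast h5
  rw [hab, div_pow, div_eq_div_iff ha' hq']
  linear_combination -h4

theorem rat_case (r : ℚ) (hr : 0 < r) (hr1 : r ≠ 1) (s : ℤ) (hs : s = 1 ∨ s = -1) :
    ∃ (a b : ℕ) (c : ℤ), Admissible a b c ∧ ∀ m, TrueIterate a b c m → PowerQuotient r s m := by
  obtain ⟨b, hb⟩ : ∃ b : ℕ, (b : ℤ) = r.num := ⟨r.num.toNat, Int.toNat_of_nonneg (Rat.num_pos.2 hr).le⟩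
  have hb0 : 0 < b := by
    have h1 := Rat.num_pos.2 hr
    omega
  have hrab : r = (b : ℚ) / (r.den : ℕ) := by
    have h1 := (Rat.num_div_den r).symm
    rw [← hb, Int.cast_natCast] at h1
    exact h1
  have hcop : Nat.Coprime r.den b := by
    have h1 := r.reduced
    rw [← hb, Int.natAbs_natCast] at h1
    exact h1.symm
  have hne : (b : ℤ) - (r.den : ℕ) ≠ 0 := by
    intro h0
    apply hr1
    rw [hrab]
    have h1 : (b : ℤ) = (r.den : ℕ) := by linarith
    have h2 : b = r.den := by exact_mod_cast h1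
    rw [h2]
    exact div_self (by exact_mod_cast r.den_nz)
  exact ⟨r.den, b, s * ((b : ℤ) - (r.den : ℕ)), adm_shift r.den b r.den_pos hb0 hcop hne s hs, fun m h => shift r r.den b hrab r.den_pos s hs m h⟩

/-- **More than half.** -/
theorem result :
    (∃ n₀ : ℕ, 1 ≤ n₀ ∧ ∀ n : ℕ, 1 ≤ n → n₀ ∣ n → Good PrimeDifference n) ∧
    (∀ (a b : ℕ) (c : ℤ), Admissible a b c → ∃ n₀ : ℕ, 1 ≤ n₀ ∧ ∀ n : ℕ, 1 ≤ n → n₀ ∣ n → Good (TrueIterate a b c) n) ∧
    (∃ D Q K : ℕ, 1 ≤ D ∧ 1 ≤ Q ∧ ∀ n : ℕ → ℕ, (∀ i, 1 ≤ n i) → D ∣ n 0 → (∀ i, Q * n i ∣ n (i + 1)) →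
      (∀ (a b : ℕ) (c : ℤ), Admissible a b c →
        {i : ℕ | ¬ Good (TrueIterate a b c) (n i)}.Finite ∧ {i : ℕ | ¬ Good (TrueIterate a b c) (n i)}.ncard < K) ∧
      ∀ r : ℚ, 0 < r → r ≠ 1 → ∀ s : ℤ, s = 1 ∨ s = -1 →
        {i : ℕ | ¬ Good (PowerQuotient r s) (n i)}.Finite ∧ {i : ℕ | ¬ Good (PowerQuotient r s) (n i)}.ncard < K) ∧
    (∀ (a b : ℕ) (c : ℤ), Admissible a b c → ∀ ε : ℝ, 0 < ε → ∃ M₀ : ℕ, ∀ M : ℕ, M₀ ≤ M → ∀ u : ℕ,
      (1 / 3 - ε) * M ≤ ({m : ℕ | (u < m ∧ m ≤ u + M) ∧ TrueIterate a b c m}.ncard : ℝ)) ∧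
    (∀ ε : ℝ, 0 < ε → ∃ M₀ : ℕ, ∀ (a b : ℕ) (c : ℤ), Admissible a b c → ∀ M : ℕ, M₀ ≤ M → ∀ u : ℕ,
      ({m : ℕ | (u < m ∧ m ≤ u + M) ∧ ¬ (TrueIterate a b c m ∨ TrueIterate a b c (2 * m) ∨ TrueIterate a b c (3 * m) ∨
        (((3 : ℤ) ∣ (a : ℤ) - b ∧ ¬ (3 : ℤ) ∣ a * b * c) ∧ TrueIterate a b c (4 * m)))}.ncard : ℝ) ≤ ε * M) := by
  classical
  have hQ := Pool.Agent.AT.Q_all 4 (by norm_num)
  have hmult : ∀ (a b : ℕ) (c : ℤ), Admissible a b c → ∃ n₀ : ℕ, 1 ≤ n₀ ∧ ∀ n : ℕ, 1 ≤ n → n₀ ∣ n → Good (TrueIterate a b c) n := by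
    intro a b c hc
    obtain ⟨n₀, hn₀, h⟩ := Pool.Agent.HF.goo_mult a b c ((hAd a b c).2 hc)
    exact ⟨n₀, hn₀, fun n hn hnn => (hG _ _).1 (Pool.Agent.HF.goo_mono _ _ n hn (fun m _ hm => (hIt a b m c).1 hm) (h n hn hnn))⟩
  refine ⟨?_, hmult, ?_, ?_, ?_⟩
  · have h1 : Admissible 1 1 2 := by
      refine ⟨one_pos, one_pos, by norm_num, Nat.coprime_one_left 1, ?_, ?_, ?_⟩
      · push_cast
        exact isCoprime_one_left
      · push_cast
        exact isCoprime_one_left
      · rintro ⟨-, -, h⟩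
        revert h
        decide
    obtain ⟨n₀, hn₀, h⟩ := hmult 1 1 2 h1
    refine ⟨2 * n₀, by omega, fun n hn hnn => ?_⟩
    obtain ⟨m, rfl⟩ := hnn
    have hm : 1 ≤ n₀ * m := by
      rcases Nat.eq_zero_or_pos (n₀ * m) with h0 | h0
      · rw [mul_assoc, h0] at hn
        omega
      · exact h0
    rw [mul_assoc, ← hG]
    refine Pool.Agent.HF.goo_two _ _ (Pool.Agent.HF.goo_mono _ _ _ hm (fun k _ hk => ?_) ((hG _ _).2 (h (n₀ * m) hm (Dvd.intro _ rfl))))
    refine hk.2.mono ?_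
    rintro ⟨p, q⟩ ⟨hp, hq, he⟩
    refine ⟨hp, hq, ?_⟩
    dsimp only at he ⊢
    simp only [Nat.cast_one, one_pow, one_mul, sum_const, card_range, nsmul_eq_mul, mul_one] at he
    rw [he]
    push_cast
    ring
  · obtain ⟨D, Q, K, hD, hQ1, h⟩ := Pool.Agent.HF.goo_all
    refine ⟨D, Q, K, hD, hQ1, fun n hn1 hn2 hn3 => ?_⟩
    have hcase : ∀ (a b : ℕ) (c : ℤ), Admissible a b c → ∀ P : ℕ → Prop, (∀ m, TrueIterate a b c m → P m) →
        {i : ℕ | ¬ Good P (n i)}.Finite ∧ {i : ℕ | ¬ Good P (n i)}.ncard < K := by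
      intro a b c hc P hP
      obtain ⟨h1, h2⟩ := h n ⟨hn1, hn2, hn3⟩ a b c ((hAd a b c).2 hc)
      have hsub : {i : ℕ | ¬ Good P (n i)} ⊆ {i | ¬ Pool.Agent.HF.Goo (Pool.Agent.IT.It a b c) (n i)} := by
        intro i hi hi2
        exact hi ((hG _ _).1 (Pool.Agent.HF.goo_mono _ _ _ (hn1 i) (fun m _ hm => hP m ((hIt a b m c).1 hm)) hi2))
      exact ⟨h1.subset hsub, lt_of_le_of_lt (Set.ncard_le_ncard hsub h1) h2⟩
    refine ⟨fun a b c hc => hcase a b c hc _ (fun m hm => hm), ?_⟩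
    intro r hr hr1 s hs
    obtain ⟨a, b, c, hc, hP⟩ := rat_case r hr hr1 s hs
    exact hcase a b c hc _ hP
  · intro a b c hc ε hε
    obtain ⟨M₀, h⟩ := Pool.Agent.MM.orb_dens hQ a b c ((hAd a b c).2 hc) ε hε
    refine ⟨M₀, fun M hM u => ?_⟩
    refine (h M hM u).trans ?_
    rw [← Set.ncard_coe_finset]
    refine Nat.cast_le.2 (Set.ncard_le_ncard ?_ ?_)
    · intro m hm
      rw [mem_coe, mem_filter, mem_Ioc] at hm
      exact ⟨hm.1, (hIt a b m c).1 hm.2⟩
    · refine (finite_toSet (Ioc u (u + M))).subset ?_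
      rintro m ⟨hm, -⟩
      rw [mem_coe, mem_Ioc]
      exact hm
  · intro ε hε
    obtain ⟨M₀, h⟩ := Pool.Agent.EC9.E2 (Pool.Agent.IT.GCT (Pool.Agent.IT.K4R Pool.Agent.IT.K4C)) Pool.Agent.AT.QPc_all Pool.Agent.IT.ORB
      Pool.Agent.IT.ADO Pool.Agent.IT.PRI ε hε
    refine ⟨M₀, fun a b c hc M hM u => ?_⟩
    refine le_trans ?_ (h a b c ((hAd a b c).2 hc) M hM u)
    rw [← Set.ncard_coe_finset]
    refine Nat.cast_le.2 (Set.ncard_le_ncard ?_ (finite_toSet _))
    rintro m ⟨hm, hm2⟩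
    rw [mem_coe, mem_filter, mem_Ioc, hIt, hIt, hIt, hIt]
    exact ⟨hm, hm2⟩

end Pool.Agent.Results.MP_bf63dc_nt.MoreThanHalf
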