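import Pool.Agent.helper72.MM.X2
import Pool.Agent.helper38.AT.All

/-!
# A third of the equations near EVERY equation `a x - b y = c`

Q1 asks for infinitely many solutions of `a x - b y = c` with `x`, `y` both prime, for all admissible `a, b, c`.

THEOREM. For every `ε > 0` there are linear forms `v_i(x) = s_i x + h_i`, `i < n`, and `C` such that for ALL coprime `a, b ≥ 1` and ALL
integers `c` without local obstruction for these forms at least a third of the pairs of forms, `(1/3 - ε) n²` pairs `(i, j)`, have: `a x - b y = c` has infinitely many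
integer solutions `x, y` with `v_i(x)` and `v_j(y)` BOTH PRIME; so that, `v_i(x) = p`, `v_j(y) = q`, the equation
`(t a / d) p - (s b / d) q = (s t c + t a h - s b k) / d`, `v_i = (s, h)`, `v_j = (t, k)`, `d = gcd(s b, t a)`, is a true case of Q1. No local obstruction means: for the integer solutions of
`a x - b y = c` all `v_i(x)` are prime to `b` and all `v_i(y)` prime to `a`. Every interval of length `C (a + b)` contains such `c`.

PROOF. (1) (project AT, `Pool/Agent/helper38/AT`) All but a small proportion of the admissible quadruples in a product of four large sets of linear forms contain two forms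
which are prime simultaneously for infinitely many `n`; by the inequality of Moon and Moser at least `(1/3 - ε) n²` pairs of terms of a finite sequence of
`n` forms are prime simultaneously infinitely often, if no prime divides the product of all values of the forms and if the sequence takes every value at most `η n` times.
(2) Take a sequence `f` of this class for which the proportion `D(f)` of these pairs is almost minimal, and substitute `P x + m` for `x`, `P = (4 n)!`, such that all
constant terms become prime to `P`; this cannot increase `D`. These are the forms `v_i`. (3) Given `a, b, c` let `a r - b r' = c`, so that the solutions of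
`a x - b y = c` are `x = b m + r`, `y = a m + r'`. The `2 n` forms `v_i (b m + r)`, `v_i (a m + r')` in the variable `m` belong to the class: for a prime `l ≤ 4 n`
the constant terms are prime to `l` and the slopes divisible by `l`, for `l > 4 n` at most `2 n < l` classes of `m` are bad. So `D` of this sequence is at least the
infimum `d`. It is the mean of the proportions for the first `n` forms (at most `D(f) ≤ d + ε`), for the last `n` forms (at most `D(f)`), and twice the proportion `X` of the pairs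
`(i, j)` with `v_i (b m + r)`, `v_j (a m + r')` both prime infinitely often; hence `X ≥ 2 d - (d + ε) ≥ 1/3 - ..`.
-/

set_option autoImplicit false

namespace Pool.Agent.Results.MP_bf63dc_nt.NearEveryEquation

open Finset

/-- The conditions of Q1 on `a, b, c`. -/
def Admissible (a b : ℕ) (c : ℤ) : Prop :=
  0 < a ∧ 0 < b ∧ c ≠ 0 ∧ Nat.Coprime a b ∧ IsCoprime (a : ℤ) c ∧ IsCoprime (b : ℤ) c ∧
    ¬ (Odd a ∧ Odd b ∧ Odd c)

/-- `(a, b, c)` satisfies the conditions of Q1 and `a p - b q = c` has infinitely many solutions in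
primes `p, q`. -/
def TrueCase (a b : ℕ) (c : ℤ) : Prop :=
  Admissible a b c ∧ {pq : ℕ × ℕ | pq.1.Prime ∧ pq.2.Prime ∧ (a : ℤ) * pq.1 - b * pq.2 = c}.Infinite

/-- the value at `x` of the linear form `v = (s, h)`: `s x + h` -/
def val (v : ℕ × ℤ) (x : ℤ) : ℤ := v.1 * x + v.2

/-- `z` is a prime number -/
def Pr (z : ℤ) : Prop := ∃ p : ℕ, p.Prime ∧ (p : ℤ) = z

/-- no local obstruction: for the integer solutions of `a x - b y = c` all `v(x)` are prime to `b` and all `v(y)` prime to `a` -/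
def Unobstructed (a b : ℕ) (c : ℤ) (v : ℕ × ℤ) : Prop :=
  ∀ x y : ℤ, (a : ℤ) * x - b * y = c → IsCoprime (val v x) (b : ℤ) ∧ IsCoprime (val v y) (a : ℤ)

/-- `a x - b y = c` has infinitely many integer solutions with `v(x)`, `w(y)` both prime -/
def Solved (a b : ℕ) (c : ℤ) (v w : ℕ × ℤ) : Prop :=
  {xy : ℤ × ℤ | (a : ℤ) * xy.1 - b * xy.2 = c ∧ Pr (val v xy.1) ∧ Pr (val w xy.2)}.Infinite

/-- the equation between the primes `p = v(x)`, `q = w(y)`, divided by the gcd of its coefficients, is a true case of Q1 -/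
def Case (a b : ℕ) (c : ℤ) (v w : ℕ × ℤ) : Prop :=
  TrueCase (w.1 * a / Nat.gcd (v.1 * b) (w.1 * a)) (v.1 * b / Nat.gcd (v.1 * b) (w.1 * a))
    ((v.1 * w.1 * c + w.1 * a * v.2 - v.1 * b * w.2) / (Nat.gcd (v.1 * b) (w.1 * a) : ℕ))

theorem hT : Pool.Agent.helper85.FC.TrueCase = TrueCase := by
  funext a b c
  unfold Pool.Agent.helper85.FC.TrueCase TrueCase Admissible
  simp only [and_assoc]

theorem exSol (a b : ℕ) (c : ℤ) (hab : Nat.Coprime a b) : ∃ x y : ℤ, (a : ℤ) * x - b * y = c := by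
  obtain ⟨x, y, hxy⟩ := Nat.isCoprime_iff_coprime.2 hab
  exact ⟨x * c, -(y * c), by linear_combination c * hxy⟩

theorem hLC (a b : ℕ) (c : ℤ) (v : ℕ × ℤ) (hab : Nat.Coprime a b) : Unobstructed a b c v ↔ Pool.Agent.MM.LC b a c v := by
  have hc : IsCoprime (a : ℤ) (b : ℤ) := Nat.isCoprime_iff_coprime.2 hab
  have e1 : ∀ x y : ℤ, (a : ℤ) * x - b * y = c → (a : ℤ) * val v x = (v.1 * c + a * v.2) + b * (v.1 * y) := by
    intro x y h
    unfold val
    rw [← h]
    ring
  have e2 : ∀ x y : ℤ, (a : ℤ) * x - b * y = c → (b : ℤ) * val v y = -(v.1 * c - b * v.2) + a * (v.1 * x) := by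
    intro x y h
    unfold val
    rw [← h]
    ring
  constructor
  · intro h
    obtain ⟨x, y, hxy⟩ := exSol a b c hab
    obtain ⟨h1, h2⟩ := h x y hxy
    refine ⟨?_, ?_⟩
    · have h3 : IsCoprime ((a : ℤ) * val v x) (b : ℤ) := IsCoprime.mul_left hc h1
      rw [e1 x y hxy] at h3
      exact IsCoprime.of_add_mul_left_left h3
    · have h3 : IsCoprime ((b : ℤ) * val v y) (a : ℤ) := IsCoprime.mul_left hc.symm h2
      rw [e2 x y hxy] at h3
      exact (IsCoprime.neg_left_iff _ _).1 (IsCoprime.of_add_mul_left_left h3)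
  · rintro ⟨h1, h2⟩ x y hxy
    refine ⟨?_, ?_⟩
    · have h3 : IsCoprime ((a : ℤ) * val v x) (b : ℤ) := by
        rw [e1 x y hxy]
        exact IsCoprime.add_mul_left_left h1 _
      exact IsCoprime.of_mul_left_right h3
    · have h3 : IsCoprime ((b : ℤ) * val v y) (a : ℤ) := by
        rw [e2 x y hxy]
        exact IsCoprime.add_mul_left_left ((IsCoprime.neg_left_iff _ _).2 h2) _
      exact IsCoprime.of_mul_left_right h3

theorem hSolved (a b : ℕ) (c : ℤ) (v w : ℕ × ℤ) (hb : 1 ≤ b) (h : Pool.Agent.MM.EQ b a c v w) : Solved a b c v w := by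
  obtain ⟨r, r', hrr, hPP, -⟩ := h
  unfold Solved
  rw [← Set.not_finite]
  intro hfin
  obtain ⟨M, hM⟩ := hfin.bddAbove
  obtain ⟨n, hn, h1, h2⟩ := hPP (M.1.natAbs + r.natAbs + 1)
  have key : ∀ (g u : ℕ × ℤ), (Pool.Agent.AT.ev (Pool.Agent.MM.sb g u) n).Prime → Pr (val u ((g.1 : ℤ) * n + g.2)) := by
    intro g u hp
    refine ⟨_, hp, ?_⟩
    have hpos := hp.pos
    unfold Pool.Agent.AT.ev Pool.Agent.MM.sb at hpos ⊢
    dsimp only at hpos ⊢
    rw [Int.toNat_of_nonneg (by omega)]
    unfold val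
    push_cast
    ring
  have h3 := hM (show ((b : ℤ) * n + r, (a : ℤ) * n + r') ∈
      {xy : ℤ × ℤ | (a : ℤ) * xy.1 - b * xy.2 = c ∧ Pr (val v xy.1) ∧ Pr (val w xy.2)} from
    ⟨by dsimp only; linear_combination hrr, key (b, r) v h1, key (a, r') w h2⟩)
  have h4 : (b : ℤ) * n + r ≤ M.1 := h3.1
  have h5 : (n : ℤ) ≤ (b : ℤ) * n := by
    have h6 : (1 : ℤ) ≤ b := by exact_mod_cast hb
    have h7 : (0 : ℤ) ≤ n := Int.natCast_nonneg _
    nlinarith
  have h8 : ((M.1.natAbs + r.natAbs + 1 : ℕ) : ℤ) ≤ n := by exact_mod_cast hn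
  push_cast at h8
  have h9 := neg_abs_le r
  have h10 := le_abs_self M.1
  linarith

theorem hCase (a b : ℕ) (c : ℤ) (v w : ℕ × ℤ) (h : Pool.Agent.MM.EQ b a c v w) : Case a b c v w := by
  obtain ⟨r, r', hrr, -, h⟩ := h
  unfold Case
  rw [← hT]
  unfold Pool.Agent.AT.Pair Pool.Agent.MM.sb at h
  dsimp only at h
  have e : ((w.1 * a : ℕ) : ℤ) * ((v.1 : ℤ) * r + v.2) - ((v.1 * b : ℕ) : ℤ) * ((w.1 : ℤ) * r' + w.2) =
      v.1 * w.1 * c + w.1 * a * v.2 - v.1 * b * w.2 := by
    rw [← hrr]
    push_cast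
    ring
  rw [e] at h
  exact h

/-- **Near every equation.** -/
theorem result : ∀ ε : ℝ, 0 < ε → ∃ (n C : ℕ) (v : Fin n → ℕ × ℤ), 0 < n ∧ (∀ i, 0 < (v i).1) ∧
    ∀ a b : ℕ, 1 ≤ a → 1 ≤ b → Nat.Coprime a b →
      (∀ u : ℤ, ∃ c : ℤ, u < c ∧ c ≤ u + C * (a + b) ∧ ∀ i, Unobstructed a b c (v i)) ∧
      ∀ c : ℤ, (∀ i, Unobstructed a b c (v i)) →
        (1 / 3 - ε) * (n : ℝ) ^ 2 ≤ ({p : Fin n × Fin n | Solved a b c (v p.1) (v p.2) ∧ Case a b c (v p.1) (v p.2)}.ncard : ℝ) := by
  classical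
  intro ε hε
  obtain ⟨n, v, hn, hv, hS, hP, h⟩ := Pool.Agent.MM.near (Pool.Agent.AT.Q_all 4 (by norm_num)) ε hε
  obtain ⟨C, hC⟩ := Pool.Agent.MM.gap (Pool.Agent.AL.JAC Pool.Agent.AL.OMG) n v hn hS hP
  refine ⟨n, C, fun i => v i, hn, fun i => hv _ i.2, fun a b ha hb hab => ⟨?_, ?_⟩⟩
  · intro u
    obtain ⟨c, h1, h2, h3⟩ := hC b a hb ha hab.symm u
    refine ⟨c, h1, by rw [add_comm (a : ℤ) b]; exact h2, fun i => (hLC a b c _ hab).2 (h3 i i.2)⟩
  · intro c hc
    refine (h b a c hb ha hab.symm fun i hi => (hLC a b c _ hab).1 (hc ⟨i, hi⟩)).trans ?_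
    rw [Pool.Agent.MM.cn_eq, ← Set.ncard_coe_finset]
    refine Nat.cast_le.2 ?_
    have hfin : ({p : Fin n × Fin n | Solved a b c (v p.1) (v p.2) ∧ Case a b c (v p.1) (v p.2)}).Finite := Set.toFinite _
    refine (Set.ncard_le_ncard (t := (fun q : Fin n × Fin n => ((q.1 : ℕ), (q.2 : ℕ))) ''
      {p : Fin n × Fin n | Solved a b c (v p.1) (v p.2) ∧ Case a b c (v p.1) (v p.2)}) ?_ (hfin.image _)).trans (Set.ncard_image_le hfin)
    intro p hp
    rw [mem_coe, mem_filter, mem_product, mem_range, mem_range] at hp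
    exact ⟨(⟨p.1, hp.1.1⟩, ⟨p.2, hp.1.2⟩), ⟨hSolved a b c _ _ hb hp.2, hCase a b c _ _ hp.2⟩, rfl⟩

end Pool.Agent.Results.MP_bf63dc_nt.NearEveryEquation
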