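import Pool.Agent.helper19.FM.Asm
import Pool.Agent.helper22.FR.ORT
import Pool.Agent.helper19.FR.SPE
import Pool.Agent.helper72.MM.G0

/-!
# Near EVERY pair `(a, b)` at least a third of all pairs have almost all `c` of a class true

`c` is called true for `(a, b)` if `(a, b, c)` satisfies the conditions of Q1 and `a p - b q = c` has infinitely many solutions in primes
`p, q`. The pair `(a, b)` is called `ε`-good (`Good`) if there are a progression `r + q ℤ` and a number `K` such that for arbitrarily large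
`T` there are `T` consecutive terms of the progression, the first of them `r + q u` with `|u| ≤ K T`, of which at least `(1 - ε) T` are
true.

THEOREM. For every `ε > 0` there are positive integers `s_1, ..., s_n` such that for ALL `a, b ≥ 1` at least a third of the `n²` pairs
`(s_i a, s_j b)`, i.e. at least `(1/3 - ε) n²` of them, are `ε`-good (divided by their gcd).

PROOF. Input (projects FR, FM, `Pool/Agent/helper19`): there is a finite set `E` of ratios such that among any four different positive integers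
with all ratios outside `E` there are two whose quotient (in lowest terms) is `ε`-good. Call a finite sequence of positive integers spread if it takes every value at most `η n` times,
`n` its length. By Turan's theorem at least `(1/3 - ε/2) n²` of the pairs of terms of a spread sequence have a good quotient (`η` small against `ε/#E`). Let
`D` be the proportion of the pairs with a good quotient, and take a spread sequence `s` with `D(s) ≤ inf D + ε/2`. For given `a`, `b` the sequence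
`s_1 a, ..., s_n a, s_1 b, ..., s_n b` is spread, and `D` of it is `D(s)/2 + X/2`, where `X` is the proportion of the pairs `(i, j)` such that `s_i a / (s_j b)` is a good
quotient (the quotients of `s_i a`, `s_j a` are those of `s_i`, `s_j`, and `Good` is symmetric). As `D ≥ inf D`, `X ≥ 2 inf D - D(s) ≥ inf D - ε/2 ≥ 1/3 - ε`.
-/

set_option autoImplicit false

namespace Pool.Agent.Results.MP_bf63dc_nt.NearEveryPair

open Finset

/-- The conditions of Q1 on `a, b, c`. -/
def Admissible (a b : ℕ) (c : ℤ) : Prop :=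
  0 < a ∧ 0 < b ∧ c ≠ 0 ∧ Nat.Coprime a b ∧ IsCoprime (a : ℤ) c ∧ IsCoprime (b : ℤ) c ∧
    ¬ (Odd a ∧ Odd b ∧ Odd c)

/-- `(a, b, c)` satisfies the conditions of Q1 and `a p - b q = c` has infinitely many solutions in
primes `p, q`. -/
def TrueCase (a b : ℕ) (c : ℤ) : Prop :=
  Admissible a b c ∧ {pq : ℕ × ℕ | pq.1.Prime ∧ pq.2.Prime ∧ (a : ℤ) * pq.1 - b * pq.2 = c}.Infinite

/-- There are `q, r, K` such that for arbitrarily large `T` at least `(1 - ε) T` of some `T` consecutive terms of the progression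
`r + q ℤ` are true for `(a, b)`, where the first of them is `r + q u` with `|u| ≤ K T`. -/
def Good (ε : ℝ) (a b : ℕ) : Prop :=
  ∃ q r K : ℕ, 1 ≤ q ∧ ∀ T₀ : ℕ, ∃ T : ℕ, T₀ ≤ T ∧ ∃ u : ℤ, |u| ≤ K * T ∧
    (1 - ε) * T ≤ ({t : ℕ | t < T ∧ TrueCase a b (r + q * (u + t))}.ncard : ℝ)

/-- the pair `(a, b)` with `a/b = s/t` in lowest terms is good -/
def GoodQ (ε : ℝ) (s t : ℕ) : Prop := Good ε (s / Nat.gcd s t) (t / Nat.gcd s t)

theorem hT : Pool.Agent.helper85.FC.TrueCase = TrueCase := by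
  funext a b c
  unfold Pool.Agent.helper85.FC.TrueCase TrueCase Admissible
  simp only [and_assoc]

theorem hcard {α : Type} (s : Finset α) (P Q : α → Prop) (inst : DecidablePred Q) (h : ∀ x, P x ↔ Q x) :
    (({x | x ∈ s ∧ P x}.ncard : ℕ) : ℝ) = ((#(@Finset.filter α Q inst s) : ℕ) : ℝ) := by
  have h1 : {x | x ∈ s ∧ P x} = ((@Finset.filter α Q inst s : Finset α) : Set α) := by
    ext x
    simp [h]
  rw [h1, Set.ncard_coe_finset]

theorem hG0 (a b q r T : ℕ) (u : ℤ) : ((Pool.Agent.OM.NR a b q T (r + q * u) : ℕ) : ℝ) =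
    ({t : ℕ | t < T ∧ TrueCase a b (r + q * (u + t))}.ncard : ℝ) := by
  unfold Pool.Agent.OM.NR
  rw [hT, ← hcard _ (fun t : ℕ => TrueCase a b (r + q * u + q * ((t : ℕ) : ℤ))) _ _ fun _ => Iff.rfl]
  have e : {t : ℕ | t < T ∧ TrueCase a b (r + q * (u + t))} =
      {x : ℕ | x ∈ range T ∧ TrueCase a b (r + q * u + q * ((x : ℕ) : ℤ))} := by
    ext t
    simp only [Set.mem_ofPred_eq, mem_range]
    rw [show (r : ℤ) + q * (u + t) = r + q * u + q * (t : ℤ) by ring]
  rw [e]

theorem hG (ε : ℝ) (a b : ℕ) : Pool.Agent.FM.GoodM ε a b ↔ Good ε a b := by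
  unfold Pool.Agent.FM.GoodM Good
  simp only [hG0]

theorem hQ (ε : ℝ) (s t : ℕ) : Pool.Agent.FM.GQM ε s t ↔ GoodQ ε s t := hG ε _ _

/-- **Near every pair.** -/
theorem result : ∀ ε : ℝ, 0 < ε → ∃ (n : ℕ) (s : Fin n → ℕ), 0 < n ∧ (∀ i, 0 < s i) ∧ ∀ a b : ℕ, 1 ≤ a → 1 ≤ b →
    (1 / 3 - ε) * (n : ℝ) ^ 2 ≤ ({p : Fin n × Fin n | GoodQ ε (s p.1 * a) (s p.2 * b)}.ncard : ℝ) := by
  classical
  intro ε hε
  obtain ⟨ε', hε', hε1, hεε⟩ : ∃ ε' : ℝ, 0 < ε' ∧ ε' ≤ 1 ∧ ε' ≤ ε := ⟨min ε 1, lt_min hε one_pos, min_le_right _ _, min_le_left _ _⟩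
  obtain ⟨C, hC, -⟩ := Pool.Agent.FM.Asm_C ε' hε' hε1
  have hmain := Pool.Agent.FM.main Pool.Agent.FR.SPE Pool.Agent.FR.ORT ε' C hε' hε1 hC
  obtain ⟨E, hE, hFour⟩ := Pool.Agent.FM.GLBM ε' C hmain
  obtain ⟨hS1, hS2, hS3⟩ := Pool.Agent.FM.GQMS
  -- the exceptional relation
  obtain ⟨Z, hZ⟩ : ∃ Z : ℕ → ℕ → Prop, Z = fun s t => Pool.Agent.OM.rp s t ∈ E ∨ Pool.Agent.OM.rp t s ∈ E := ⟨_, rfl⟩
  have hk : ∀ s, 0 < s → ∃ T : Finset ℕ, #T ≤ 2 * #E ∧ ∀ t, Z s t → t ∈ T := by
    intro s hs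
    -- `t` is determined by `s` and the ratio: `t = s (r.2 / r.1)`
    refine ⟨E.image (fun r => s * r.2 / r.1) ∪ E.image (fun r => s * r.1 / r.2), ?_, ?_⟩
    · refine (card_union_le _ _).trans ?_
      have h1 := card_image_le (s := E) (f := fun r : ℕ × ℕ => s * r.2 / r.1)
      have h2 := card_image_le (s := E) (f := fun r : ℕ × ℕ => s * r.1 / r.2)
      omega
    · intro t ht
      have key : ∀ u v : ℕ, 0 < u → v = u * (Pool.Agent.OM.rp u v).2 / (Pool.Agent.OM.rp u v).1 := by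
        intro u v hu
        have h3 : 0 < (Pool.Agent.OM.rp u v).1 := Nat.div_pos (Nat.gcd_le_left v hu) (Nat.gcd_pos_of_pos_left v hu)
        rw [Pool.Agent.FM.CNT_rp u v]
        exact (Nat.mul_div_cancel _ h3).symm
      rw [hZ] at ht
      rcases ht with ht | ht
      · refine mem_union_left _ (mem_image.2 ⟨_, ht, ?_⟩)
        exact (key s t hs).symm
      · refine mem_union_right _ (mem_image.2 ⟨_, ht, ?_⟩)
        have h4 := key s t hs
        rw [Pool.Agent.FM.CNT_swap t s] at h4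
        exact h4.symm
  obtain ⟨n, s, hn, hs, h⟩ := Pool.Agent.MM.min_third (Pool.Agent.FM.GQM ε') Z (hS1 ε') (fun c s t hc => hS2 ε' c s t hc)
    (by
      intro s t h
      rw [hZ] at h ⊢
      exact h.symm) (2 * #E) hk (by
      intro a ha hinj
      by_contra hc
      push Not at hc
      obtain ⟨i, j, hij, hg⟩ := hFour a (fun i => ⟨ha i, Set.mem_univ _⟩) hinj (by
        intro i j hij h
        apply (hc i j hij).2
        rw [hZ]
        exact Or.inl h)
      exact (hc i j hij).1 hg) ε hε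
  refine ⟨n, fun i => s i, hn, fun i => hs _, fun a b ha hb => ?_⟩
  refine (h a b ha hb).trans ?_
  rw [Pool.Agent.MM.cnt_eq, ← Set.ncard_coe_finset]
  have hmem : ∀ p : ℕ × ℕ, p ∈ (({p ∈ range n ×ˢ range n | Pool.Agent.FM.GQM ε' (s p.1 * a) (s p.2 * b)} : Finset (ℕ × ℕ)) : Set (ℕ × ℕ)) →
      ∃ q : Fin n × Fin n, q ∈ {q : Fin n × Fin n | GoodQ ε (s q.1 * a) (s q.2 * b)} ∧ ((q.1 : ℕ), (q.2 : ℕ)) = p := by
    intro p hp
    rw [mem_coe, mem_filter, mem_product, mem_range, mem_range] at hp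
    refine ⟨(⟨p.1, hp.1.1⟩, ⟨p.2, hp.1.2⟩), ?_, rfl⟩
    exact (hQ _ _ _).1 (hS3 ε' ε _ _ hεε hp.2)
  refine Nat.cast_le.2 ?_
  have hfin : ({q : Fin n × Fin n | GoodQ ε (s q.1 * a) (s q.2 * b)}).Finite := Set.toFinite _
  refine (Set.ncard_le_ncard (t := (fun q : Fin n × Fin n => ((q.1 : ℕ), (q.2 : ℕ))) '' {q : Fin n × Fin n | GoodQ ε (s q.1 * a) (s q.2 * b)})
    (fun p hp => hmem p hp) (hfin.image _)).trans (Set.ncard_image_le hfin)

end Pool.Agent.Results.MP_bf63dc_nt.NearEveryPair
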